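import Pool.Agent.Helper94.KC.GoalsC

/-!
# Project KC, packet FD
-/

set_option autoImplicit false

namespace Pool.Agent.Helper41.KC

open Pool.Agent.Helper94.KC
open scoped Classical
open Finset

theorem mem_wed {V : Type} {G : SimpleGraph V} {x y : V} (w : G.Walk x y) (f : Finset V) :
    f ∈ wed w ↔ ∃ e ∈ w.edges, e.toFinset = f := by
  unfold wed
  rw [List.mem_toFinset, List.mem_map]

/-- every edge is in exactly two triangles -/
theorem two_card {V : Type} [Fintype V] {T : Finset (Finset V)} (hS : Surf T) {e : Finset V}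
    (he : e ∈ ed T) : (T.filter (fun t => e ⊆ t)).card = 2 := by
  have h1 := (Finset.mem_filter.mp he).2
  obtain ⟨h2, t, ht, het⟩ := h1
  obtain ⟨u, v, huv, rfl⟩ := Finset.card_eq_two.mp h2
  have h3 := hS.two u v ⟨huv, t, ht, het (by simp), het (by simp)⟩
  rw [← h3]
  congr 1
  apply Finset.filter_congr
  intro t _
  constructor
  · intro h
    exact ⟨h (by simp), h (by simp)⟩
  · rintro ⟨h4, h5⟩ y hy
    rw [Finset.mem_insert, Finset.mem_singleton] at hy
    rcases hy with rfl | rfl
    · exact h4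
    · exact h5

/-- the edges in the boundary of the set of the triangles which miss `W` -/
theorem bd_outer {V : Type} [Fintype V] {T : Finset (Finset V)} (hS : Surf T) (W : Finset V)
    {e : Finset V} (he : e ∈ bd T (trW T (univ \ W))) :
    e ⊆ univ \ W ∧ ∃ t' ∈ T, e ⊆ t' ∧ (t' ∩ W).card = 1 ∧ t' \ W = e := by
  obtain ⟨he1, hodd⟩ := Finset.mem_filter.mp he
  have h2 := two_card hS he1
  have hec : e.card = 2 := (Finset.mem_filter.mp he1).2.1
  have hsub : (trW T (univ \ W)).filter (fun t => e ⊆ t) ⊆ T.filter (fun t => e ⊆ t) := by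
    apply Finset.filter_subset_filter
    exact Finset.filter_subset _ _
  have hle := Finset.card_le_card hsub
  have hne : ((trW T (univ \ W)).filter (fun t => e ⊆ t)).card ≠ 2 := by
    intro h
    rw [h] at hodd
    exact absurd hodd (by decide)
  have hlt : ((trW T (univ \ W)).filter (fun t => e ⊆ t)).card <
      (T.filter (fun t => e ⊆ t)).card := by omega
  have hpos : 0 < ((trW T (univ \ W)).filter (fun t => e ⊆ t)).card := hodd.pos
  obtain ⟨t, ht⟩ := Finset.card_pos.mp hpos
  obtain ⟨ht1, ht2⟩ := Finset.mem_filter.mp ht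
  have htU : t ⊆ univ \ W := (Finset.mem_filter.mp ht1).2
  have heU : e ⊆ univ \ W := ht2.trans htU
  obtain ⟨t', ht', hnt'⟩ := Finset.exists_mem_notMem_of_card_lt_card hlt
  obtain ⟨ht'1, ht'2⟩ := Finset.mem_filter.mp ht'
  have hnU : ¬ t' ⊆ univ \ W := by
    intro h
    apply hnt'
    exact Finset.mem_filter.mpr ⟨Finset.mem_filter.mpr ⟨ht'1, h⟩, ht'2⟩
  obtain ⟨y, hyt, hyW⟩ : ∃ y ∈ t', y ∈ W := by
    by_contra hcon
    push Not at hcon
    apply hnU
    intro y hy
    exact Finset.mem_sdiff.mpr ⟨Finset.mem_univ y, hcon y hy⟩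
  have heW : ∀ a ∈ e, a ∉ W := fun a ha => (Finset.mem_sdiff.mp (heU ha)).2
  have hye : y ∉ e := fun h => heW y h hyW
  have hcard : (t' \ e).card = 1 := by
    rw [Finset.card_sdiff_of_subset ht'2, hS.card t' ht'1, hec]
  obtain ⟨v, hv⟩ := Finset.card_eq_one.mp hcard
  have hyv : y = v := by
    have : y ∈ t' \ e := Finset.mem_sdiff.mpr ⟨hyt, hye⟩
    rw [hv, Finset.mem_singleton] at this
    exact this
  subst hyv
  refine ⟨heU, t', ht'1, ht'2, ?_, ?_⟩
  · rw [Finset.card_eq_one]
    refine ⟨y, ?_⟩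
    ext a
    rw [Finset.mem_inter, Finset.mem_singleton]
    constructor
    · rintro ⟨h3, h4⟩
      have : a ∈ t' \ e := Finset.mem_sdiff.mpr ⟨h3, fun h => heW a h h4⟩
      rw [hv, Finset.mem_singleton] at this
      exact this
    · rintro rfl
      exact ⟨hyt, hyW⟩
  · ext a
    rw [Finset.mem_sdiff]
    constructor
    · rintro ⟨h3, h4⟩
      by_contra hae
      have : a ∈ t' \ e := Finset.mem_sdiff.mpr ⟨h3, hae⟩
      rw [hv, Finset.mem_singleton] at this
      subst this
      exact h4 hyW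
    · intro ha
      exact ⟨ht'2 ha, heW a ha⟩

theorem notMem_foldr {V : Type} (L : List (Finset (Finset V))) (t : Finset V)
    (h : ∀ D ∈ L, t ∉ D) : t ∉ L.foldr symmDiff ∅ := by
  induction L with
  | nil => simp
  | cons D L ih =>
    rw [List.foldr_cons, Finset.mem_symmDiff]
    have h1 := h D (by simp)
    have h2 := ih (fun D' hD' => h D' (by simp [hD']))
    tauto

/-- propagation of a property along a walk -/
theorem walk_prop {V : Type} {G : SimpleGraph V} (P Q : V → Prop)
    (h : ∀ a b, G.Adj a b → Q b → P a → P b) {a b : V} (w : G.Walk a b)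
    (hw : ∀ y ∈ w.support, Q y) (ha : P a) : P b := by
  induction w with
  | nil => exact ha
  | cons hadj p ih =>
    apply ih
    · intro y hy
      exact hw y (by simp [hy])
    · exact h _ _ hadj (hw _ (by simp)) ha

/-- PACKET FD -/
theorem fd (hEV : StmtEV) (hDB : StmtDB) (hDD : StmtDD) (hAR : StmtAR) : StmtFD := by
  intro V _ T hS m c hmc hEW x₀ w hw x hx W htk x₁ w₁ hw₁ hsup hnb
  obtain ⟨ev1, ev2, ev3, ev4, ev5, ev6⟩ := hEV V T hS
  set TU := trW T (univ \ W) with hTU
  have hTUT : TU ⊆ T := Finset.filter_subset _ _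
  set z := bd T TU with hz
  have hzed : z ⊆ ed T := Finset.filter_subset _ _
  have hzE : Even2 z := ev3 TU hTUT
  have hzcard : z.card ≤ tk T W 1 := by
    have hsub : z ⊆ (T.filter (fun t => (t ∩ W).card = 1)).image (fun t => t \ W) := by
      intro e he
      obtain ⟨_, t', ht', _, h1, h2⟩ := bd_outer hS W he
      exact Finset.mem_image.mpr ⟨t', Finset.mem_filter.mpr ⟨ht', h1⟩, h2⟩
    exact (Finset.card_le_card hsub).trans Finset.card_image_le
  obtain ⟨L, hL1, hL2⟩ := hDD V T hS c hEW z hzed hzE (by omega)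
  set S := L.foldr symmDiff ∅ with hSdef
  have hST : S ⊆ T := by
    intro t ht
    by_contra htT
    apply notMem_foldr L t _ ht
    intro D hD htD
    obtain ⟨_, _, _, _, hdisc⟩ := hL2 D hD
    exact htT (hdisc.sub htD)
  have hsym : symmDiff S TU = ∅ ∨ symmDiff S TU = T := by
    apply ev6
    · intro t ht
      rw [Finset.mem_symmDiff] at ht
      rcases ht with h | h
      · exact hST h.1
      · exact hTUT h.1
    · rw [ev1, hL1]
      exact symmDiff_self _
  -- no disc of the list touches the cycle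
  have hkey : ∀ D ∈ L, ∀ t ∈ D, ∀ v ∈ w₁.support, v ∉ t := by
    intro D hD t htD v hv hvt
    obtain ⟨y, wD, hwD, hwDz, hdisc⟩ := hL2 D hD
    have hne : (wed wD).Nonempty := by
      rw [← Finset.card_pos, (ev4 y wD hwD).2.1]
      have := hwD.three_le_length
      omega
    obtain ⟨db1, db2⟩ := hDB V T hS D (wed wD) hdisc hne
    have hoff : ∀ a, a ∈ W → ∀ e ∈ wed wD, a ∉ e := by
      intro a ha e he hae
      have h1 := (bd_outer hS W (hwDz he)).1 hae
      exact (Finset.mem_sdiff.mp h1).2 ha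
    let P : V → Prop := fun a => ∀ t ∈ T, a ∈ t → t ∈ D
    have hstep : ∀ a b, (sk T).Adj a b → b ∈ W → P a → P b := by
      intro a b hab hb hPa t' ht' hbt'
      obtain ⟨_, t'', ht'', ha'', hb''⟩ := hab
      exact db2 b (hoff b hb) t'' ht'' t' ht' hb'' hbt' (hPa t'' ht'' ha'')
    have hPv : P v := by
      intro t' ht' hvt'
      exact db2 v (hoff v (hsup v hv)) t (hdisc.sub htD) t' ht' hvt hvt' htD
    have hPx : P x₁ := by
      refine walk_prop P (fun a => a ∈ W) hstep (w₁.takeUntil v hv).reverse ?_ hPv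
      intro y' hy'
      rw [SimpleGraph.Walk.support_reverse, List.mem_reverse] at hy'
      exact hsup y' (w₁.support_takeUntil_subset hv hy')
    have hPall : ∀ a ∈ w₁.support, P a := by
      intro a ha
      refine walk_prop P (fun a => a ∈ W) hstep (w₁.takeUntil a ha) ?_ hPx
      intro y' hy'
      exact hsup y' (w₁.support_takeUntil_subset ha hy')
    have hwed : wed w₁ ⊆ ed D := by
      intro f hf
      obtain ⟨e, he, rfl⟩ := (mem_wed w₁ f).mp hf
      induction e with
      | _ a b =>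
        have hadj := w₁.adj_of_mem_edges he
        have ha := w₁.fst_mem_support_of_mem_edges he
        obtain ⟨hne', t', ht', hat', hbt'⟩ := hadj
        rw [Sym2.toFinset_mk_eq]
        refine Finset.mem_filter.mpr ⟨Finset.mem_univ _, Finset.card_pair hne', t',
          hPall a ha t' ht' hat', ?_⟩
        intro y' hy'
        rw [Finset.mem_insert, Finset.mem_singleton] at hy'
        rcases hy' with rfl | rfl
        · exact hat'
        · exact hbt'
    obtain ⟨D', hD', hbd⟩ := db1 (wed w₁) hwed (ev4 x₁ w₁ hw₁).1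
    exact hnb ⟨D', hD'.trans hdisc.sub, hbd⟩
  have hSTU : S = TU := by
    rcases hsym with h | h
    · exact symmDiff_eq_bot.mp h
    · exfalso
      obtain ⟨t, ht, hxt⟩ := hS.cover x₁
      have hx1 : x₁ ∈ w₁.support := w₁.start_mem_support
      have h1 : t ∉ S := by
        apply notMem_foldr
        intro D hD htD
        exact hkey D hD t htD x₁ hx1 hxt
      have h2 : t ∉ TU := by
        intro h2
        have h3 := (Finset.mem_filter.mp h2).2 hxt
        exact (Finset.mem_sdiff.mp h3).2 (hsup x₁ hx1)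
      have h3 : t ∈ symmDiff S TU := by
        rw [h]
        exact ht
      rw [Finset.mem_symmDiff] at h3
      tauto
  by_cases hxW : x ∈ W
  · exact ⟨x, hxW, by simp⟩
  by_cases hxn : ∃ v ∈ W, (sk T).Adj x v
  · obtain ⟨v, hv, hadj⟩ := hxn
    refine ⟨v, hv, ?_⟩
    have := SimpleGraph.dist_le hadj.toWalk
    simp at this
    omega
  push Not at hxn
  obtain ⟨t, ht, hxt⟩ := hS.cover x
  have htU : t ⊆ univ \ W := by
    intro y hy
    refine Finset.mem_sdiff.mpr ⟨Finset.mem_univ y, ?_⟩
    by_cases hxy : x = y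
    · rw [← hxy]
      exact hxW
    · intro hyW
      exact hxn y hyW ⟨hxy, t, ht, hxt, hy⟩
  have htS : t ∈ S := by
    rw [hSTU]
    exact Finset.mem_filter.mpr ⟨ht, htU⟩
  obtain ⟨D, hD, htD⟩ : ∃ D ∈ L, t ∈ D := by
    by_contra hcon
    push Not at hcon
    exact notMem_foldr L t hcon htS
  obtain ⟨y, wD, hwD, hwDz, hdisc⟩ := hL2 D hD
  -- the vertices of the boundary have neighbours in `W`
  have hnbW : ∀ a ∈ wD.support, ∃ v ∈ W, (sk T).Adj a v := by
    intro a ha
    have hnil : ¬ wD.Nil := hwD.not_nil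
    obtain ⟨e, he, hae⟩ := (SimpleGraph.Walk.mem_support_iff_exists_mem_edges_of_not_nil hnil).mp ha
    have hfe : e.toFinset ∈ wed wD := (mem_wed wD _).mpr ⟨e, he, rfl⟩
    obtain ⟨hU, t', ht', het', h1, h2⟩ := bd_outer hS W (hwDz hfe)
    have hae' : a ∈ e.toFinset := Sym2.mem_toFinset.mpr hae
    obtain ⟨v, hv⟩ := Finset.card_pos.mp (by rw [h1]; exact Nat.one_pos : 0 < (t' ∩ W).card)
    rw [Finset.mem_inter] at hv
    refine ⟨v, hv.2, ?_, t', ht', het' hae', hv.1⟩
    rintro rfl
    exact (Finset.mem_sdiff.mp (hU hae')).2 hv.2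
  have hxD : x ∉ wD.support := by
    intro h
    obtain ⟨v, hv, hadj⟩ := hnbW x h
    exact hxn v hv hadj
  obtain ⟨p, hp, hpd⟩ := hAR V T hS x₀ w hw x hx D y wD hwD hdisc ⟨t, htD, hxt⟩ hxD
  obtain ⟨v, hv, hadj⟩ := hnbW p hp
  refine ⟨v, hv, ?_⟩
  have h1 : wD.length ≤ z.card := by
    rw [← (ev4 y wD hwD).2.1]
    exact Finset.card_le_card hwDz
  have h2 := hS.conn.dist_triangle (u := x) (v := p) (w := v)
  have h3 : (sk T).dist p v ≤ 1 := by
    have := SimpleGraph.dist_le hadj.toWalk
    simpa using this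
  omega

end Pool.Agent.Helper41.KC
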